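import Pool.Agent.N65.GP.Defs

/-!
# Project GP, leaf IM: constant imaginary part implies zero (helper527)
-/

set_option autoImplicit false

namespace Pool.Agent.N527.GP

open Pool.Agent.N65.GP Complex Filter Topology

/-- the integrals tend to zero at infinity -/
theorem int_tendsto (γ : Loop) (m : ℂ) (R : ℝ) (hm : R < ‖m‖)
    (hγ : ∀ t, ‖γ.x t‖ < R ∧ ‖γ.y t‖ < R) :
    Tendsto (fun c => γ.int (ker m c)) (Bornology.cobounded ℂ) (𝓝 0) := by
  have hR : 0 < R := lt_of_le_of_lt (norm_nonneg _) (hγ 0).1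
  have hm0 : 0 < ‖m‖ := hR.trans hm
  have hc : Continuous fun t : ℝ => Complex.log (1 - γ.y t / m) * deriv γ.x t := by
    refine Continuous.mul ?_ (γ.hx.continuous_deriv le_rfl)
    refine Continuous.clog (continuous_const.sub (γ.hy.continuous.div_const m)) fun t => ?_
    have h1 : ‖-(γ.y t / m)‖ < 1 := by
      rw [norm_neg, norm_div, div_lt_one hm0]
      exact (hγ t).2.trans hm
    have h2 := Complex.mem_slitPlane_of_norm_lt_one h1
    rw [← sub_eq_add_neg] at h2
    exact h2
  obtain ⟨M, hM⟩ := isCompact_Icc.exists_bound_of_continuousOn (s := Set.Icc (0 : ℝ) 1)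
    hc.continuousOn
  have hM0 : 0 ≤ M := (norm_nonneg _).trans (hM 0 ⟨le_rfl, zero_le_one⟩)
  have hb : ∀ c : ℂ, R < ‖c‖ → ‖γ.int (ker m c)‖ ≤ M / (‖c‖ - R) := by
    intro c hc
    have h1 : ‖γ.int (ker m c)‖ ≤ M / (‖c‖ - R) * |1 - 0| := by
      unfold Loop.int
      refine intervalIntegral.norm_integral_le_of_norm_le_const fun t ht => ?_
      rw [Set.uIoc_of_le zero_le_one] at ht
      have h2 := hM t ⟨ht.1.le, ht.2⟩
      have h3 : ‖c‖ - R ≤ ‖γ.x t - c‖ := by
        have h4 := norm_sub_norm_le c (γ.x t)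
        rw [norm_sub_rev] at h4
        have h5 := (hγ t).1
        linarith
      have h6 : Pool.Agent.N65.GP.ker m c (γ.x t) (γ.y t) * deriv γ.x t =
          Complex.log (1 - γ.y t / m) * deriv γ.x t / (γ.x t - c) := by
        unfold Pool.Agent.N65.GP.ker
        ring
      rw [h6, norm_div]
      exact div_le_div₀ hM0 h2 (by linarith) h3
    simpa using h1
  rw [tendsto_zero_iff_norm_tendsto_zero]
  have hn : Tendsto (fun c : ℂ => ‖c‖) (Bornology.cobounded ℂ) atTop := tendsto_norm_cobounded_atTop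
  have hl : Tendsto (fun c : ℂ => M / (‖c‖ - R)) (Bornology.cobounded ℂ) (𝓝 0) := by
    refine Tendsto.div_atTop tendsto_const_nhds ?_
    exact tendsto_atTop_add_const_right _ _ hn
  refine squeeze_zero' (Eventually.of_forall fun c => norm_nonneg _) ?_ hl
  filter_upwards [hn.eventually_gt_atTop R] with c hc
  exact hb c hc

theorem t_IM (hHD : S_HD) : S_IM := by
  intro ι _ γ w m R κ Z hZ hm hBd him c hc
  rcases isEmpty_or_nonempty ι with hι | ⟨⟨l₀⟩⟩
  · simp
  have hR : 0 < R := lt_of_le_of_lt (norm_nonneg _) (hBd l₀ 0).1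
  obtain ⟨h, hh⟩ : ∃ h : ℂ → ℂ, h = fun c => ∑ l, (w l : ℂ) * (γ l).int (ker m c) := ⟨_, rfl⟩
  have hd : DifferentiableOn ℂ h {c | R < ‖c‖} := by
    rw [hh]
    exact DifferentiableOn.fun_sum fun l _ => ((hHD (γ l) R (hBd l)).1 m hm).const_mul _
  have hlim : Tendsto h (Bornology.cobounded ℂ) (𝓝 0) := by
    rw [hh]
    have h1 : Tendsto (fun c => ∑ l, (w l : ℂ) * (γ l).int (ker m c)) (Bornology.cobounded ℂ)
        (𝓝 (∑ l : ι, (w l : ℂ) * 0)) :=
      tendsto_finsetSum _ fun l _ => (int_tendsto (γ l) m R hm (hBd l)).const_mul _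
    simpa using h1
  -- the half plane
  obtain ⟨U, hU⟩ : ∃ U : Set ℂ, U = {z : ℂ | Real.log R < z.re} := ⟨_, rfl⟩
  have hUo : IsOpen U := by
    rw [hU]
    exact isOpen_lt continuous_const Complex.continuous_re
  have hUc : IsPreconnected U := by
    rw [hU]
    exact (convex_halfSpace_re_gt _).isPreconnected
  have hexp : ∀ z ∈ U, R < ‖Complex.exp z‖ := by
    intro z hz
    rw [hU] at hz
    rw [Complex.norm_exp]
    exact (Real.log_lt_iff_lt_exp hR).1 hz
  have hga : AnalyticOnNhd ℂ (fun z => h (Complex.exp z)) U := by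
    refine DifferentiableOn.analyticOnNhd ?_ hUo
    exact hd.comp Complex.differentiable_exp.differentiableOn fun z hz => hexp z hz
  -- it is constant
  obtain ⟨w₀, hw₀⟩ : ∃ w₀, ∀ z ∈ U, h (Complex.exp z) = w₀ := by
    rcases hga.is_constant_or_isOpen hUc with h1 | h1
    · exact h1
    · exfalso
      have hVo : IsOpen (U ∩ Complex.exp ⁻¹' Zᶜ) :=
        hUo.inter (hZ.isClosed.isOpen_compl.preimage Complex.continuous_exp)
      have hopen := h1 _ Set.inter_subset_left hVo
      obtain ⟨r, hr, hrZ⟩ : ∃ r : ℝ, R < r ∧ (r : ℂ) ∉ Z := by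
        have hinf : ((fun r : ℝ => (r : ℂ)) '' Set.Ioi R).Infinite :=
          (Set.Ioi_infinite R).image Complex.ofReal_injective.injOn
        obtain ⟨_, ⟨r, hr, rfl⟩, hrZ⟩ := hinf.exists_notMem_finite hZ
        exact ⟨r, hr, hrZ⟩
      have hr0 : 0 < r := hR.trans hr
      have hmem : (Real.log r : ℂ) ∈ U ∩ Complex.exp ⁻¹' Zᶜ := by
        refine ⟨?_, ?_⟩
        · rw [hU]
          show Real.log R < (Real.log r : ℂ).re
          rw [Complex.ofReal_re]
          exact Real.log_lt_log hR hr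
        · show Complex.exp (Real.log r : ℂ) ∉ Z
          rw [← Complex.ofReal_exp, Real.exp_log hr0]
          exact hrZ
      have hw := Set.mem_image_of_mem (fun z => h (Complex.exp z)) hmem
      obtain ⟨ε, hε, hball⟩ := Metric.isOpen_iff.1 hopen _ hw
      have key : ∀ v ∈ (fun z => h (Complex.exp z)) '' (U ∩ Complex.exp ⁻¹' Zᶜ), v.im = κ := by
        rintro _ ⟨z, ⟨hz1, hz2⟩, rfl⟩
        show (h (Complex.exp z)).im = κ
        rw [hh]
        exact him _ (hexp z hz1) hz2
      have e1 := key _ hw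
      have e2 := key ((fun z => h (Complex.exp z)) (Real.log r : ℂ) + ((ε / 2 : ℝ) : ℂ) * Complex.I)
        (hball (by
          rw [Metric.mem_ball, dist_eq_norm, add_sub_cancel_left, norm_mul, Complex.norm_I, mul_one,
            Complex.norm_real, Real.norm_eq_abs, abs_of_pos (by linarith)]
          linarith))
      rw [Complex.add_im, e1, Complex.mul_I_im, Complex.ofReal_re] at e2
      linarith
  -- the constant is zero
  have hc0 : c ≠ 0 := by
    rintro rfl
    rw [norm_zero] at hc
    linarith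
  have hlogU : ∀ n : ℕ, Complex.log c + n ∈ U := by
    intro n
    rw [hU]
    show Real.log R < (Complex.log c + n).re
    rw [Complex.add_re, Complex.log_re, Complex.natCast_re]
    have h1 := Real.log_lt_log hR hc
    have h2 : (0 : ℝ) ≤ n := Nat.cast_nonneg n
    linarith
  have hw0 : w₀ = 0 := by
    have h1 : Tendsto (fun n : ℕ => Complex.exp (Complex.log c + n)) atTop
        (Bornology.cobounded ℂ) := by
      rw [← tendsto_norm_atTop_iff_cobounded]
      simp only [Complex.norm_exp, Complex.add_re, Complex.natCast_re]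
      exact Real.tendsto_exp_atTop.comp
        (tendsto_atTop_add_const_left _ _ tendsto_natCast_atTop_atTop)
    have h2 := hlim.comp h1
    have h3 : (h ∘ fun n : ℕ => Complex.exp (Complex.log c + n)) = fun _ => w₀ := by
      funext n
      exact hw₀ _ (hlogU n)
    rw [h3] at h2
    exact tendsto_nhds_unique tendsto_const_nhds h2
  have h1 := hw₀ _ (hlogU 0)
  rw [Nat.cast_zero, add_zero, Complex.exp_log hc0, hw0, hh] at h1
  exact h1

end Pool.Agent.N527.GP
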